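import Mathlib
import Pool.Agent.H84.MeetB

set_option autoImplicit false

open TopologicalSpace

namespace Pool.Agent.Results.MP_87f021_gt.Counter

theorem result :
    ∃ (X : Type) (_ : TopologicalSpace X), T1Space X ∧ (∀ x : X, ¬ IsOpen ({x} : Set X)) ∧
      ∃ B : Set (Set X), IsTopologicalBasis B ∧ (∀ U ∈ B, ∀ V ∈ B, U ∩ V ∈ B) ∧
        ∀ B₀ B₁ : Set (Set X), B₀ ∪ B₁ = B → Disjoint B₀ B₁ →
          ¬ (IsTopologicalBasis B₀ ∧ IsTopologicalBasis B₁) :=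
  ⟨Pool.Agent.H84.MeetB.X, inferInstance, Pool.Agent.H84.MeetB.t1,
    Pool.Agent.H84.MeetB.no_isolated, Pool.Agent.H84.MeetB.BB, Pool.Agent.H84.MeetB.basis,
    Pool.Agent.H84.MeetB.BB_inter,
    fun B₀ B₁ hu hd h => Pool.Agent.H84.MeetB.not_resolvable B₀ B₁ hu hd h.1 h.2⟩

end Pool.Agent.Results.MP_87f021_gt.Counter
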